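import Mathlib
import Pool.Agent.Q58.WCS.Exist
import Pool.Agent.Q58.WCS2.Main

/-!
# MP_d5a689_co, Q1: lengths with exactly two weakly consecutive permutations

`numWCS k` is the number `N(k)` of weakly consecutive permutations of `[k]`.  We show that
`N(k) = 2` for infinitely many `k`; in fact the set of these `k` has positive lower logarithmic
density.

By the classification of the weakly consecutive sequences (`MP_52d8fd_co.Classification`),
`N(k) = 2` for all `k ≥ 24` with `k = 24` modulo `30` such that `k` is in none of the intervals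
`[p ^ c, p ^ c + p ^ (c - 1))`.  The latter are counted in the windows `[3 * 2 ^ b, 4 * 2 ^ b)`,
which avoid the intervals with `p = 2`.  On average over `b`, the intervals belonging to an odd
prime `p` cover the proportion `log (1 + 1 / p) / log p` of the window (irrational rotation by
`log 2 / log p`), and the sum of these numbers over the odd primes is less than `0.95`.
-/

set_option autoImplicit false

namespace Pool.Agent.Results.MP_d5a689_co.ExactlyTwo

open Pool.Agent.Results.MP_a4c3d5_co.SmallTerms Pool.Agent.Q58.WCS Pool.Agent.Q58.WCS2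
open scoped Classical

/-- The weakly consecutive permutations of `[k]`. The elements of `[k]` are represented by
`Fin k`, `i : Fin k` standing for `i + 1`. -/
def WCP (k : ℕ) : Set (Equiv.Perm (Fin k)) :=
  {π | ∀ i j : Fin k, ∀ m : ℕ, 1 ≤ m → m ≤ k → m ∣ (π i : ℕ) + 1 →
    (m : ℤ) ∣ (((i : ℕ) + 1 : ℕ) : ℤ) - (((j : ℕ) + 1 : ℕ) : ℤ) → m ∣ (π j : ℕ) + 1}

/-- The number `N(k)` of weakly consecutive permutations of `[k]`. -/
noncomputable def numWCS (k : ℕ) : ℕ := (WCP k).ncard

/-- The set `A` of the lengths `k ≥ 2` with exactly two weakly consecutive permutations. -/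
def A : Set ℕ := {k | 2 ≤ k ∧ numWCS k = 2}

lemma two_forms {k : ℕ} (hg : Good k) {s : Start} (hs : s ≠ .sophie)
    (hs' : ∀ i, 1 ≤ i → i ≤ k → s.seq k i = i) {l : List Rule} {f : ℕ → ℕ}
    (h : Derives k s l f) :
    (∀ i, 1 ≤ i → i ≤ k → f i = i) ∨ (∀ i, 1 ≤ i → i ≤ k → f i = k + 1 - i) := by
  induction h with
  | start _ => exact Or.inl hs'
  | @step l f r h hr ih =>
    cases r with
    | twin q => exact (hs hr.1).elim
    | power p c => exact (hg p hr.1 ⟨c, hr.2.1, hr.2.2.1, hr.2.2.2⟩).elim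
    | reversal =>
      rcases ih with ih | ih
      · right
        intro i h1 h2
        show f (k + 1 - i) = k + 1 - i
        exact ih _ (by omega) (by omega)
      · left
        intro i h1 h2
        show f (k + 1 - i) = i
        rw [ih _ (by omega) (by omega)]
        omega

lemma two_wcs {k : ℕ} (hk : 24 ≤ k) (hmod : k % 30 = 24) (hg : Good k) {σ : ℕ → ℕ}
    (h : IsWCS k σ) :
    (∀ i, 1 ≤ i → i ≤ k → σ i = i) ∨ (∀ i, 1 ≤ i → i ≤ k → σ i = k + 1 - i) := by
  obtain ⟨s, l, f, h1, -, h2⟩ := exists_derivation (by omega) h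
  have hav : s.Available k := by
    clear h2
    induction h1 with
    | start h => exact h
    | step r _ _ ih => exact ih
  have h3 : (∀ i, 1 ≤ i → i ≤ k → f i = i) ∨ (∀ i, 1 ≤ i → i ≤ k → f i = k + 1 - i) := by
    cases s with
    | consecutive => exact two_forms hg (by decide) (fun _ _ _ => rfl) h1
    | inversion =>
      exfalso
      have hp : (k + 1).Prime := hav
      have := (Nat.prime_dvd_prime_iff_eq Nat.prime_five hp).1
        (Nat.dvd_of_mod_eq_zero (by omega))
      omega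
    | twiceTwin =>
      exfalso
      obtain ⟨p, hp, -, hkp⟩ := hav
      have := (Nat.prime_dvd_prime_iff_eq Nat.prime_three hp).1
        (Nat.dvd_of_mod_eq_zero (by omega))
      omega
    | sophie =>
      exfalso
      obtain ⟨p, -, -, -, hkp⟩ := hav
      omega
    | twiceTwinInversion =>
      exfalso
      obtain ⟨p, hp, -, -, hkp⟩ := hav
      have := (Nat.prime_dvd_prime_iff_eq Nat.prime_three hp).1
        (Nat.dvd_of_mod_eq_zero (by omega))
      omega
  rcases h3 with h3 | h3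
  · left
    intro i hi1 hi2
    rw [← h2 i hi1 hi2, h3 i hi1 hi2]
  · right
    intro i hi1 hi2
    rw [← h2 i hi1 hi2, h3 i hi1 hi2]

/-- The function on `1, ..., k` belonging to a permutation. -/
def toFun (k : ℕ) (π : Equiv.Perm (Fin k)) (i : ℕ) : ℕ :=
  if h : 1 ≤ i ∧ i ≤ k then (π ⟨i - 1, by omega⟩ : ℕ) + 1 else 0

lemma toFun_apply {k : ℕ} (π : Equiv.Perm (Fin k)) (i : Fin k) :
    toFun k π ((i : ℕ) + 1) = (π i : ℕ) + 1 := by
  have hi := i.isLt
  unfold toFun
  rw [dif_pos ⟨by omega, by omega⟩]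
  rfl

lemma isWCS_toFun {k : ℕ} {π : Equiv.Perm (Fin k)} (h : π ∈ WCP k) : IsWCS k (toFun k π) := by
  have hrep : ∀ i, 1 ≤ i → i ≤ k → ∃ a : Fin k, i = (a : ℕ) + 1 := by
    intro i h1 h2
    refine ⟨⟨i - 1, by omega⟩, ?_⟩
    simp only
    omega
  refine ⟨⟨?_, ?_, ?_⟩, ?_⟩
  · intro i hi
    obtain ⟨a, rfl⟩ := hrep i hi.1 hi.2
    rw [toFun_apply]
    have := (π a).isLt
    exact ⟨by omega, by omega⟩
  · intro i hi j hj hij
    obtain ⟨a, rfl⟩ := hrep i hi.1 hi.2
    obtain ⟨b, rfl⟩ := hrep j hj.1 hj.2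
    rw [toFun_apply, toFun_apply] at hij
    have h1 : π a = π b := Fin.ext (by omega)
    rw [π.injective h1]
  · intro v hv
    obtain ⟨a, rfl⟩ := hrep v hv.1 hv.2
    refine ⟨((π.symm a : Fin k) : ℕ) + 1, ⟨by omega, by have := (π.symm a).isLt; omega⟩, ?_⟩
    rw [toFun_apply, Equiv.apply_symm_apply]
  · intro i hi j hj m hm h1 h2
    obtain ⟨a, rfl⟩ := hrep i hi.1 hi.2
    obtain ⟨b, rfl⟩ := hrep j hj.1 hj.2
    rw [toFun_apply] at h1 ⊢
    refine h a b m hm ?_ h1 h2
    have := (π a).isLt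
    exact (Nat.le_of_dvd (by omega) h1).trans (by omega)

theorem numWCS_two {k : ℕ} (hk : 24 ≤ k) (hmod : k % 30 = 24) (hg : Good k) : numWCS k = 2 := by
  have hne : (1 : Equiv.Perm (Fin k)) ≠ Fin.revPerm := by
    intro h
    have h1 := congrArg (fun π : Equiv.Perm (Fin k) => ((π ⟨0, by omega⟩ : Fin k) : ℕ)) h
    simp only [Equiv.Perm.coe_one, id_eq, Fin.revPerm_apply, Fin.val_rev] at h1
    omega
  have hset : WCP k = {1, Fin.revPerm} := by
    ext π
    rw [Set.mem_insert_iff, Set.mem_singleton_iff]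
    constructor
    · intro h
      rcases two_wcs hk hmod hg (isWCS_toFun h) with h1 | h1
      · left
        ext i
        have hi := i.isLt
        have h2 := h1 ((i : ℕ) + 1) (by omega) (by omega)
        rw [toFun_apply] at h2
        simp only [Equiv.Perm.coe_one, id_eq]
        omega
      · right
        ext i
        have hi := i.isLt
        have h2 := h1 ((i : ℕ) + 1) (by omega) (by omega)
        rw [toFun_apply] at h2
        rw [Fin.revPerm_apply, Fin.val_rev]
        omega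
    · rintro (rfl | rfl)
      · intro i j m _ _ h1 h2
        simp only [Equiv.Perm.coe_one, id_eq] at h1 ⊢
        have h3 : (m : ℤ) ∣ (((i : ℕ) + 1 : ℕ) : ℤ) := by exact_mod_cast h1
        have h4 : (((j : ℕ) + 1 : ℕ) : ℤ) = (((i : ℕ) + 1 : ℕ) : ℤ) -
            ((((i : ℕ) + 1 : ℕ) : ℤ) - (((j : ℕ) + 1 : ℕ) : ℤ)) := by ring
        have h5 : (m : ℤ) ∣ (((j : ℕ) + 1 : ℕ) : ℤ) := by
          rw [h4]
          exact dvd_sub h3 h2
        exact_mod_cast h5
      · intro i j m _ _ h1 h2
        rw [Fin.revPerm_apply, Fin.val_rev] at h1 ⊢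
        have hi := i.isLt
        have hj := j.isLt
        have h3 : (m : ℤ) ∣ ((k - ((i : ℕ) + 1) + 1 : ℕ) : ℤ) := by exact_mod_cast h1
        have h4 : ((k - ((j : ℕ) + 1) + 1 : ℕ) : ℤ) = ((k - ((i : ℕ) + 1) + 1 : ℕ) : ℤ) +
            ((((i : ℕ) + 1 : ℕ) : ℤ) - (((j : ℕ) + 1 : ℕ) : ℤ)) := by omega
        have h5 : (m : ℤ) ∣ ((k - ((j : ℕ) + 1) + 1 : ℕ) : ℤ) := by
          rw [h4]
          exact dvd_add h3 h2
        exact_mod_cast h5
  rw [numWCS, hset, Set.ncard_pair hne]

/-- The set `A` has positive lower logarithmic density. -/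
theorem lower_density : ∃ x0 : ℕ, ∀ x : ℕ, x0 ≤ x →
    0.0001 * Real.log x ≤ ∑ k ∈ (Finset.Icc 1 x).filter (· ∈ A), (1 : ℝ) / k := by
  obtain ⟨N, hN3, K, hK0, hK⟩ := main_count
  have hlog2 : 0 < Real.log 2 := Real.log_pos (by norm_num)
  have l1 := Real.log_two_gt_d9
  have l2 := Real.log_two_lt_d9
  obtain ⟨Z, hZ⟩ := exists_nat_gt (Real.exp (10000 * (N + K + 3)))
  refine ⟨max Z (2 ^ (N + 2)), ?_⟩
  intro x hx
  have hx1 : Z ≤ x := (le_max_left _ _).trans hx
  have hx2 : 2 ^ (N + 2) ≤ x := (le_max_right _ _).trans hx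
  have hx0 : 0 < x := lt_of_lt_of_le (by positivity) hx2
  have hx0' : (0 : ℝ) < x := by exact_mod_cast hx0
  have hlogx : 10000 * (N + K + 3) ≤ Real.log x := by
    rw [Real.le_log_iff_exp_le hx0']
    have : (Z : ℝ) ≤ x := by exact_mod_cast hx1
    linarith
  have hL : N + 2 ≤ Nat.log 2 x := by
    apply Nat.le_log_of_pow_le (by norm_num) hx2
  obtain ⟨M, hM⟩ : ∃ M, M + (N + 1) = Nat.log 2 x := ⟨Nat.log 2 x - (N + 1), by omega⟩
  have hxp : 2 ^ (M + (N + 1)) ≤ x := by
    rw [hM]
    exact Nat.pow_log_le_self 2 hx0.ne'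
  have hxM : Real.log x ≤ (M + (N + 1) + 1) * Real.log 2 := by
    have h1 : x < 2 ^ (M + (N + 1) + 1) := by
      rw [hM]
      exact Nat.lt_pow_succ_log_self (by norm_num) x
    have h2 : (x : ℝ) ≤ 2 ^ (M + (N + 1) + 1) := by exact_mod_cast h1.le
    have h3 := Real.log_le_log hx0' h2
    rw [Real.log_pow] at h3
    push_cast at h3
    exact h3
  -- the good numbers
  have hsub : (Finset.range M).biUnion (fun m => G (N + m)) ⊆ (Finset.Icc 1 x).filter (· ∈ A) := by
    intro k hk
    rw [Finset.mem_biUnion] at hk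
    obtain ⟨m, hm, hk⟩ := hk
    rw [Finset.mem_range] at hm
    rw [G, Finset.mem_filter, AP, Finset.mem_filter, Finset.mem_Ico] at hk
    obtain ⟨⟨⟨hk1, hk2⟩, hk3⟩, hk4⟩ := hk
    have h8 : 2 ^ 3 ≤ 2 ^ (N + m) := Nat.pow_le_pow_right (by norm_num) (by omega)
    have h9 : 4 * 2 ^ (N + m) ≤ 2 ^ (M + (N + 1)) := by
      have h10 : 4 * 2 ^ (N + m) = 2 ^ (N + m + 2) := by ring
      rw [h10]
      exact Nat.pow_le_pow_right (by norm_num) (by omega)
    rw [Finset.mem_filter, Finset.mem_Icc]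
    refine ⟨⟨by omega, by omega⟩, by omega, numWCS_two (by omega) hk3 hk4⟩
  have hdis : ∀ m ∈ Finset.range M, ∀ m' ∈ Finset.range M, m ≠ m' →
      Disjoint (G (N + m)) (G (N + m')) := by
    intro m _ m' _ hne
    rw [Finset.disjoint_left]
    intro k hk hk'
    rw [G, Finset.mem_filter, AP, Finset.mem_filter, Finset.mem_Ico] at hk hk'
    rcases Nat.lt_or_gt_of_ne hne with h | h
    · have h1 : 2 ^ (N + m + 1) ≤ 2 ^ (N + m') := Nat.pow_le_pow_right (by norm_num) (by omega)
      rw [pow_succ] at h1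
      omega
    · have h1 : 2 ^ (N + m' + 1) ≤ 2 ^ (N + m) := Nat.pow_le_pow_right (by norm_num) (by omega)
      rw [pow_succ] at h1
      omega
  have h1 : ∑ k ∈ (Finset.range M).biUnion (fun m => G (N + m)), (1 : ℝ) / k ≤
      ∑ k ∈ (Finset.Icc 1 x).filter (· ∈ A), (1 : ℝ) / k := by
    apply Finset.sum_le_sum_of_subset_of_nonneg hsub
    intro k _ _
    positivity
  have h2 : (1 / 120 : ℝ) * (0.02 * M - K) ≤
      ∑ k ∈ (Finset.range M).biUnion (fun m => G (N + m)), (1 : ℝ) / k := by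
    rw [Finset.sum_biUnion hdis]
    calc (1 / 120 : ℝ) * (0.02 * M - K) ≤
        (1 / 120) * ∑ m ∈ Finset.range M, ((G (N + m)).card : ℝ) * (30 / 2 ^ (N + m)) := by
          have := hK M
          gcongr
      _ = ∑ m ∈ Finset.range M, (1 / 120) * (((G (N + m)).card : ℝ) * (30 / 2 ^ (N + m))) := by
          rw [Finset.mul_sum]
      _ ≤ _ := by
          apply Finset.sum_le_sum
          intro m _
          have h3 : (1 / 120 : ℝ) * (((G (N + m)).card : ℝ) * (30 / 2 ^ (N + m))) =
              ∑ k ∈ G (N + m), 1 / (4 * (2 : ℝ) ^ (N + m)) := by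
            rw [Finset.sum_const, nsmul_eq_mul]
            field_simp
            ring
          rw [h3]
          apply Finset.sum_le_sum
          intro k hk
          rw [G, Finset.mem_filter, AP, Finset.mem_filter, Finset.mem_Ico] at hk
          have h4 : (k : ℝ) ≤ 4 * (2 : ℝ) ^ (N + m) := by exact_mod_cast hk.1.1.2.le
          have h5 : (0 : ℝ) < k := by
            have h6 : 0 < 2 ^ (N + m) := by positivity
            have h7 : 0 < k := by omega
            exact_mod_cast h7
          exact one_div_le_one_div_of_le h5 h4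
  have h3 : Real.log x ≤ 0.6931471808 * (M + (N + 1) + 1) := by
    have : (0 : ℝ) ≤ M + (N + 1) + 1 := by positivity
    nlinarith
  nlinarith [hlogx, h1, h2, h3, hK0]

/-- `N(k) = 2` for infinitely many `k`; the set of these `k` has positive lower logarithmic
density. -/
theorem result : A.Infinite ∧ ∃ x0 : ℕ, ∀ x : ℕ, x0 ≤ x →
    0.0001 ≤ (1 / Real.log x) * ∑ k ∈ (Finset.Icc 1 x).filter (· ∈ A), (1 : ℝ) / k := by
  obtain ⟨x0, hx0⟩ := lower_density
  constructor
  · intro hfin
    obtain ⟨x, hx⟩ := exists_nat_gt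
      (Real.exp (10000 * (∑ k ∈ hfin.toFinset, (1 : ℝ) / k) + 1))
    have h1 := hx0 (max x x0) (le_max_right _ _)
    have h2 : ∑ k ∈ (Finset.Icc 1 (max x x0)).filter (· ∈ A), (1 : ℝ) / k ≤
        ∑ k ∈ hfin.toFinset, (1 : ℝ) / k := by
      apply Finset.sum_le_sum_of_subset_of_nonneg
      · intro k hk
        rw [Finset.mem_filter] at hk
        rw [Set.Finite.mem_toFinset]
        exact hk.2
      · intro k _ _
        positivity
    have h3 : 10000 * (∑ k ∈ hfin.toFinset, (1 : ℝ) / k) + 1 ≤ Real.log ((max x x0 : ℕ) : ℝ) := by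
      have h4 : (x : ℝ) ≤ ((max x x0 : ℕ) : ℝ) := by exact_mod_cast le_max_left x x0
      have h5 : (0 : ℝ) < ((max x x0 : ℕ) : ℝ) :=
        lt_of_lt_of_le ((Real.exp_pos _).trans hx) h4
      rw [Real.le_log_iff_exp_le h5]
      linarith
    linarith
  · refine ⟨max x0 2, ?_⟩
    intro x hx
    have h1 := hx0 x ((le_max_left _ _).trans hx)
    have h2 : (2 : ℝ) ≤ x := by exact_mod_cast (le_max_right _ _).trans hx
    have h3 : 0 < Real.log x := Real.log_pos (by linarith)
    rw [one_div, inv_mul_eq_div, le_div_iff₀ h3]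
    exact h1

end Pool.Agent.Results.MP_d5a689_co.ExactlyTwo
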